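import Mathlib

namespace Pool.Agent.H.MP_c9b87f_lc

open Set Filter Topology Metric

abbrev Y : Type := ℕ → Bool

lemma gen {P Z ι : Type} [TopologicalSpace Z] [CompactSpace Z] [Countable ι] (le : P → P → Prop)
    (r : ∀ p, le p p) (t : ∀ p q s, le p q → le q s → le p s) (K : P → Set Z)
    (kc : ∀ p, IsClosed (K p)) (kn : ∀ p, (K p).Nonempty) (km : ∀ p q, le p q → K p ⊆ K q)
    (T : ι → ℕ → ℕ → Set Z)
    (h : ∀ i p, ∃ q, le q p ∧ ∃ j, ∀ l s, le s q → ∃ u, le u s ∧ K u ⊆ T i j l) (p0 : P) :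
    ∃ z ∈ K p0, ∀ i, ∃ j, ∀ l, z ∈ T i j l := by
  let D : Option (ι × Option (ℕ × ℕ)) → P → Prop := fun o q => o.elim True fun x => x.2.elim
    (∃ j, ∀ l s, le s q → ∃ u, le u s ∧ K u ⊆ T x.1 j l)
    fun y => K q ⊆ T x.1 y.1 y.2 ∨ ∀ u, le u q → ¬ K u ⊆ T x.1 y.1 y.2
  have d : ∀ o p, ∃ q, le q p ∧ D o q := by
    rintro (_ | ⟨i, _ | ⟨j, l⟩⟩) p
    · exact ⟨p, r p, trivial⟩
    · exact h i p
    · by_cases c : ∃ u, le u p ∧ K u ⊆ T i j l
      · exact c.imp fun u hu => ⟨hu.1, .inl hu.2⟩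
      · exact ⟨p, r p, .inr fun u a b => c ⟨u, a, b⟩⟩
  choose nx n1 n2 using d
  obtain ⟨e, he⟩ := exists_surjective_nat (Option (ι × Option (ℕ × ℕ)))
  let σ : ℕ → P := fun n => Nat.rec p0 (fun n p => nx (e n) p) n
  have m : ∀ a b, a ≤ b → le (σ b) (σ a) := fun a b hab => by
    induction b, hab using Nat.le_induction with
    | base => exact r _
    | succ n _ ih => exact t _ _ _ (n1 _ _) ih
  have s : ∀ o, ∃ n, D o (σ n) := fun o => (he o).elim fun n hn => ⟨n + 1, hn ▸ n2 (e n) _⟩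
  obtain ⟨z, hz⟩ := IsCompact.nonempty_iInter_of_sequence_nonempty_isCompact_isClosed
    (fun n => K (σ n)) (fun n => km _ _ (n1 _ _)) (fun _ => kn _) (kc _).isCompact fun _ => kc _
  refine ⟨z, mem_iInter.1 hz 0, fun i => ?_⟩
  obtain ⟨a, j, ha⟩ := s (some (i, none))
  refine ⟨j, fun l => ?_⟩
  obtain ⟨b, hb | hb⟩ := s (some (i, some (j, l)))
  · exact hb (mem_iInter.1 hz b)
  · obtain ⟨u, u1, u2⟩ := ha l _ (m a (a + b) (by omega))
    exact (hb u (t _ _ _ u1 (m b (a + b) (by omega))) u2).elim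

def Nb (U : Set ℕ) (t : Y) (k : ℕ) : Set Y :=
  {f | (∀ a < k, f a = t a) ∧ ∀ a, k ≤ a → f a = true → a ∈ U}

def cut (t : Y) (k : ℕ) : Y := fun a => decide (a < k) && t a

lemma cut_mem (U t k) : cut t k ∈ Nb U t k :=
  ⟨fun a h => by simp [cut, h], fun a h => by simp [cut, h.not_gt]⟩

lemma nb_sub {U U' t f k k'} (h : f ∈ Nb U t k) (hk : k ≤ k') (hU : U' ⊆ U) :
    Nb U' f k' ⊆ Nb U t k := fun g hg => ⟨fun a ha => (hg.1 a (by omega)).trans (h.1 a ha),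
  fun a ha e => (lt_or_ge a k').elim (fun c => h.2 a ha (hg.1 a c ▸ e)) fun c => hU (hg.2 a c e)⟩

lemma nb_mono {U U'} (t k) (hU : U' ⊆ U) : Nb U' t k ⊆ Nb U t k :=
  fun _ h => ⟨h.1, fun a b c => hU (h.2 a b c)⟩

lemma cl {Z : Type} [TopologicalSpace Z] {f : Z → Bool} (hf : Continuous f) (p : Bool → Prop) :
    IsClosed {z | p (f z)} := (isClosed_discrete {b | p b}).preimage hf

lemma nb_closed (U t k) : IsClosed (Nb U t k) := by
  rw [Nb, setOf_and, setOf_forall, setOf_forall]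
  exact (isClosed_iInter fun a => cl (continuous_apply a) fun b => a < k → b = t a).inter
    (isClosed_iInter fun a => cl (continuous_apply a) fun b => k ≤ a → b = true → a ∈ U)

lemma esc {F : Set Y} (hF : IsClosed F) {f} (h : f ∉ F) : ∃ k, ∀ U k', k ≤ k' → Nb U f k' ⊆ Fᶜ := by
  obtain ⟨s, u, a, b⟩ := isOpen_pi_iff.1 hF.isOpen_compl f h
  exact ⟨s.sup id + 1, fun U k' hk g hg => b fun i hi =>
    hg.1 i (by have := Finset.le_sup (f := id) hi; simp only [id] at this; omega) ▸ (a i hi).2⟩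

structure Id4 (I : Set (Set ℕ)) (F : ℕ → ℕ → ℕ → Set Y) : Prop where
  sub : ∀ A ∈ I, ∀ B : Set ℕ, B ⊆ A → B ∈ I
  un : ∀ A ∈ I, ∀ B ∈ I, A ∪ B ∈ I
  fin : ∀ A : Set ℕ, A.Finite → A ∈ I
  cl : ∀ i j l, IsClosed (F i j l)
  pos : ∀ f : Y, {n | f n = true} ∉ I ↔ ∃ i, ∀ j, ∃ l, f ∈ F i j l

abbrev N (U : ℕ → Set ℕ) (p : Y × ℕ × ℕ) : Set Y := Nb (U p.2.2) p.1 p.2.1

def Big (F : ℕ → ℕ → ℕ → Set Y) (U : ℕ → Set ℕ) (i : ℕ) (M : Set Y) : Prop :=
  ∀ j q, N U q ⊆ M → ∃ r l, N U r ⊆ N U q ∧ N U r ⊆ F i j l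

variable {I : Set (Set ℕ)} {F : ℕ → ℕ → ℕ → Set Y} {U : ℕ → Set ℕ}

lemma not_big {i M} (h : ¬ Big F U i M) :
    ∃ j q, N U q ⊆ M ∧ ∀ r l, N U r ⊆ N U q → ¬ N U r ⊆ F i j l := by
  unfold Big at h
  push Not at h
  exact h

lemma big_pos (h : Id4 I F) (hU : Antitone U) {i p} (b : Big F U i (N U p)) :
    ∃ f : Y, {n | f n = true} ∉ I ∧ ∀ n, ∃ k, ∀ a, k ≤ a → f a = true → a ∈ U n := by
  obtain ⟨z, -, hz⟩ := gen (P := {q // N U q ⊆ N U p}) (fun a b => N U a.1 ⊆ N U b.1)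
    (fun _ => subset_rfl) (fun _ _ _ => Subset.trans) (fun a => N U a.1) (fun _ => nb_closed _ _ _)
    (fun _ => ⟨_, cut_mem _ _ _⟩) (fun _ _ => id) (fun (x : ℕ ⊕ ℕ) _ _ => x.elim
      (fun j => {f | ∃ l, f ∈ F i j l}) fun n => {f | ∃ k, ∀ a, k ≤ a → f a = true → a ∈ U n})
    (fun x q => ⟨q, subset_rfl, 0, fun _ s _ => by
      rcases x with j | n
      · obtain ⟨r, l, r1, r2⟩ := b j s.1 s.2
        exact ⟨⟨r, r1.trans s.2⟩, r1, fun f hf => ⟨l, r2 hf⟩⟩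
      · have := nb_mono s.1.1 s.1.2.1 (hU (le_max_left s.1.2.2 n))
        exact ⟨⟨(s.1.1, s.1.2.1, max s.1.2.2 n), this.trans s.2⟩, this,
          fun f hf => ⟨_, fun a b c => hU (le_max_right _ _) (hf.2 a b c)⟩⟩⟩) ⟨p, subset_rfl⟩
  exact ⟨z, (h.pos z).2 ⟨i, fun j => (hz (.inl j)).elim fun _ h => h 0⟩,
    fun n => (hz (.inr n)).elim fun _ h => h 0⟩

lemma pos_big (h : Id4 I F) (hU : Antitone U) {S : Set ℕ} (hS : S ∉ I)
    (hs : ∀ n, ∃ k, ∀ a, k ≤ a → a ∈ S → a ∈ U n) : ∃ i p, Big F U i (N U p) := by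
  classical
  by_contra! H
  choose κ hκ using hs
  let P := {σ : (Bool → Y) × ℕ × ℕ // κ σ.2.2 ≤ σ.2.1 ∧
    ∀ a < σ.2.1, κ 0 ≤ a → a ∈ S → ∃ b, σ.1 b a = true}
  let le : P → P → Prop := fun a b => ∀ c, N U (a.1.1 c, a.1.2) ⊆ N U (b.1.1 c, b.1.2)
  have mv : ∀ (σ : P) b q, N U q ⊆ N U (σ.1.1 b, σ.1.2) →
      ∃ τ : P, le τ σ ∧ N U (τ.1.1 b, τ.1.2) ⊆ N U q := by
    rintro ⟨⟨t, k, n⟩, s1, s2⟩ b ⟨f, k', n'⟩ hq
    have c1 := cut_mem (U n') f k'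
    have : N U (cut f k', max (max k k') (κ (max n n')), max n n') ⊆ N U (f, k', n') :=
      nb_sub c1 (by simp) (hU (by simp))
    refine ⟨⟨(fun c => if c = b then cut f k' else fun a => if a < k then t c a else decide (a ∈ S),
      max (max k k') (κ (max n n')), max n n'), by simp, fun a _ a1 a2 => ?_⟩, fun c => ?_,
      by simpa using this⟩
    · by_cases e : a < k
      · obtain ⟨c, hc⟩ := s2 a e a1 a2
        refine ⟨c, ?_⟩
        by_cases e' : c = b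
        · simpa [e', (hq c1).1 a e] using hc
        · simpa [e', e] using hc
      · exact ⟨!b, by simp [e, a2]⟩
    · by_cases e' : c = b
      · simpa [e'] using this.trans hq
      · refine nb_sub ⟨fun a ha => by simp_all, fun a ha e => hκ n a (s1.trans ha) ?_⟩ (by simp)
          (hU (by simp))
        simpa [e', ha.not_gt] using e
  obtain ⟨z, hz, hz'⟩ := gen le (fun _ _ => subset_rfl) (fun _ _ _ a b c => (a c).trans (b c))
    (fun σ => {z : Bool → Y | (∀ c, z c ∈ N U (σ.1.1 c, σ.1.2)) ∧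
      ∀ a, κ 0 ≤ a → a ∈ S → ∃ b, z b a = true}) (fun σ => by
      simp only [setOf_and, setOf_forall (fun a (f : Bool → Y) => _), setOf_exists]
      exact (isClosed_iInter fun c => (nb_closed _ _ _).preimage (continuous_apply c)).inter
        (isClosed_iInter fun a => isClosed_iInter fun _ => isClosed_iInter fun _ =>
          isClosed_iUnion_of_finite fun b => cl (by fun_prop) (· = true)))
    (fun σ => ⟨fun c a => if a < σ.1.2.1 then σ.1.1 c a else decide (a ∈ S), fun c =>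
      ⟨fun a ha => if_pos ha, fun a ha e => hκ _ a (σ.2.1.trans ha) (by simpa [ha.not_gt] using e)⟩,
      fun a a1 a2 => by
        by_cases e : a < σ.1.2.1
        · simpa [e] using σ.2.2 a e a1 a2
        · simp [e, a2]⟩)
    (fun _ _ e z hz => ⟨fun c => e c (hz.1 c), hz.2⟩)
    (fun (x : Bool × ℕ) j l => {z | z x.1 ∉ F x.2 j l}) (fun ⟨b, i⟩ σ => by
      obtain ⟨j, q, q1, q2⟩ := not_big (H i (σ.1.1 b, σ.1.2))
      obtain ⟨τ, t1, t2⟩ := mv σ b q q1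
      refine ⟨τ, t1, j, fun l s hs => ?_⟩
      obtain ⟨f, f1, f2⟩ := not_subset.1 (q2 _ l ((hs b).trans t2))
      obtain ⟨k, hk⟩ := esc (h.cl i j l) f2
      obtain ⟨u, u1, u2⟩ := mv s b (f, max k s.1.2.1, s.1.2.2) (nb_sub f1 (by simp) subset_rfl)
      exact ⟨u, u1, fun z hz => hk _ _ (by simp) (u2 (hz.1 b))⟩)
    ⟨(fun _ _ => false, κ 0, 0), le_rfl, fun a h h' => absurd h h'.not_gt⟩
  have : ∀ b, {n | z b n = true} ∈ I := fun b => by
    by_contra c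
    obtain ⟨i, hi⟩ := (h.pos _).1 c
    obtain ⟨j, hj⟩ := hz' (b, i)
    exact (hi j).elim hj
  refine hS (h.sub _ (h.un _ (h.fin _ (finite_Iio (κ 0))) _ (h.un _ (this true) _ (this false))) _
    fun a ha => (lt_or_ge a (κ 0)).imp_right fun c => ?_)
  obtain ⟨b, hb⟩ := hz.2 a c ha
  cases b; exacts [.inr hb, .inl hb]

end Pool.Agent.H.MP_c9b87f_lc
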