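import Pool.Agent.H.MP_c9b87f_lc.A

namespace Pool.Agent.H.MP_c9b87f_lc

open Set Filter Topology Metric

variable {I : Set (Set ℕ)} {F : ℕ → ℕ → ℕ → Set Y} {X : Type} [MetricSpace X] {x : ℕ → X}

def th (C : Set X) (n : ℕ) : Set X := ⋃ c ∈ C, ball c (1 / (n + 1))

lemma th_open (C : Set X) (n : ℕ) : IsOpen (th C n) := isOpen_biUnion fun _ _ => isOpen_ball

lemma sub_th (C : Set X) (n : ℕ) : C ⊆ th C n :=
  fun _ h => mem_biUnion h (mem_ball_self Nat.one_div_pos_of_nat)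

lemma th_anti (C : Set X) : Antitone (th C) := fun _ _ h =>
  iUnion₂_mono fun _ _ => ball_subset_ball (Nat.one_div_le_one_div h)

lemma th_sub {C W : Set X} (hC : C.Finite) (hW : IsOpen W) (h : C ⊆ W) : ∃ n, th C n ⊆ W :=
  ((eventually_all_finite hC).2 fun c hc => (Metric.isOpen_iff.1 hW c (h hc)).elim fun ε e =>
    ((tendsto_one_div_add_atTop_nhds_zero_nat (𝕜 := ℝ)).eventually_le_const e.1).mono
      fun _ hn => (ball_subset_ball hn).trans e.2).exists.imp fun _ hn => iUnion₂_subset hn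

def Lam (I : Set (Set ℕ)) {X : Type} [TopologicalSpace X] (x : ℕ → X) : Set X :=
  {l | ∃ A : Set ℕ, A ∉ I ∧ Tendsto x (atTop ⊓ 𝓟 A) (𝓝 l)}

lemma td_iff {A : Set ℕ} {c : X} : Tendsto x (atTop ⊓ 𝓟 A) (𝓝 c) ↔
    ∀ n : ℕ, ∃ k, ∀ a, k ≤ a → a ∈ A → dist (x a) c < 1 / (n + 1) := by
  simp only [nhds_basis_ball_inv_nat_succ.tendsto_right_iff, eventually_inf_principal,
    eventually_atTop, mem_ball, forall_true_left]

lemma jc (h : Id4 I F) {C : Set X} (hC : C.Finite) (hd : ∀ c ∈ C, c ∉ Lam I x) {S : Set ℕ}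
    (hS : ∀ n, ∃ k, ∀ a, k ≤ a → a ∈ S → a ∈ x ⁻¹' th C n) : S ∈ I := by
  have : ∀ D : Set X, D.Finite → D ⊆ C →
      ⋃ c ∈ D, {a ∈ S | ∀ d ∈ C, dist (x a) c ≤ dist (x a) d} ∈ I := fun D hD => by
    induction D, hD using Finite.induction_on with
    | empty => simpa using h.fin _ finite_empty
    | @insert c D _ _ ih =>
      intro s
      rw [biUnion_insert]
      refine h.un _ ?_ _ (ih ((subset_insert _ _).trans s))
      by_contra z
      refine hd c (s (mem_insert _ _)) ⟨_, z, td_iff.2 fun n => (hS n).imp fun k hk a ha b => ?_⟩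
      obtain ⟨d, d1, d2⟩ := mem_iUnion₂.1 (hk a ha b.1)
      exact (b.2 d d1).trans_lt d2
  obtain ⟨k, hk⟩ := hS 0
  refine h.sub _ (h.un _ (h.fin _ (finite_Iio k)) _ (this C hC subset_rfl)) _
    fun a ha => (lt_or_ge a k).imp_right fun c => ?_
  obtain ⟨d, d1, -⟩ := mem_iUnion₂.1 (hk a c ha)
  obtain ⟨e, e1, e2⟩ := exists_min_image C (dist (x a)) hC ⟨d, d1⟩
  exact mem_biUnion e1 ⟨ha, e2⟩

lemma key (h : Id4 I F) {i : ℕ} {s0 : Y} {k0 : ℕ} {V0 D : Set X} (o0 : IsOpen V0)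
    (n0 : (D ∩ V0).Nonempty)
    (hD : ∀ η ∈ D, Big F (fun n => x ⁻¹' th {η} n) i (Nb (x ⁻¹' V0) s0 k0))
    (hq : ∀ V, IsOpen V → (D ∩ V).Nonempty → ¬ closure (D ∩ V) ⊆ Lam I x) : False := by
  let P := {σ : (Y × Y × ℕ) × Set X × Set X × Set X // (IsOpen σ.2.1 ∧ (D ∩ σ.2.1).Nonempty ∧
    IsOpen σ.2.2.1 ∧ closure σ.2.1 ⊆ σ.2.2.1) ∧ (σ.2.2.2.Finite ∧ σ.2.2.2 ⊆ σ.2.2.1 ∧
    ∀ c ∈ σ.2.2.2, c ∉ Lam I x) ∧ Nb (x ⁻¹' σ.2.1) σ.1.1 σ.1.2.2 ⊆ Nb (x ⁻¹' V0) s0 k0 ∧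
    ∀ a < σ.1.2.2, σ.1.1 a = true → σ.1.2.1 a = true}
  let A : P → Set Y := fun σ => Nb (x ⁻¹' σ.1.2.1) σ.1.1.1 σ.1.1.2.2
  let B : P → Set Y := fun σ => Nb (x ⁻¹' σ.1.2.2.1) σ.1.1.2.1 σ.1.1.2.2
  let le : P → P → Prop := fun a b => A a ⊆ A b ∧ B a ⊆ B b ∧ b.1.2.2.2 ⊆ a.1.2.2.2
  have an : ∀ C : Set X, Antitone fun n => x ⁻¹' th C n := fun C _ _ h =>
    preimage_mono (th_anti C h)
  obtain ⟨z, hz, hz'⟩ := gen le (fun _ => ⟨subset_rfl, subset_rfl, subset_rfl⟩)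
    (fun _ _ _ a b => ⟨a.1.trans b.1, a.2.1.trans b.2.1, b.2.2.trans a.2.2⟩)
    (fun σ => {z : Y × Y | z.1 ∈ A σ ∧ z.2 ∈ B σ ∧ ∀ a, z.1 a = true → z.2 a = true})
    (fun σ => ((nb_closed _ _ _).preimage continuous_fst).inter
      (((nb_closed _ _ _).preimage continuous_snd).inter (by
        show IsClosed {z : Y × Y | ∀ a, z.1 a = true → z.2 a = true}
        rw [setOf_forall]
        exact isClosed_iInter fun a => (isClosed_discrete {b : Bool × Bool | b.1 = true →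
          b.2 = true}).preimage (f := fun z : Y × Y => (z.1 a, z.2 a)) (by fun_prop))))
    (fun σ => ⟨(_, _), cut_mem _ _ _, cut_mem _ _ _, fun a e => by
      have e := Bool.and_eq_true_iff.1 e
      exact Bool.and_eq_true_iff.2 ⟨e.1, σ.2.2.2.2 a (of_decide_eq_true e.1) e.2⟩⟩)
    (fun _ _ e z hz => ⟨e.1 hz.1, e.2.1 hz.2.1, hz.2.2⟩)
    (fun (y : ℕ ⊕ ℕ) j l => y.elim (fun j => {z | ∃ l, z.1 ∈ F i j l}) fun i => {z | z.2 ∉ F i j l})
    (by
      rintro (j | i) σ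
      · refine ⟨σ, ⟨subset_rfl, subset_rfl, subset_rfl⟩, 0, fun _ τ _ => ?_⟩
        obtain ⟨⟨⟨s, t, k⟩, V, W, C⟩, ⟨v1, ⟨η, e1, e2⟩, v3, v4⟩, c, m1, m2⟩ := τ
        obtain ⟨n, hn⟩ := th_sub (finite_singleton η) v1 (singleton_subset_iff.2 e2)
        have b1 := nb_mono s k (preimage_mono (f := x) hn)
        obtain ⟨⟨f, k', n'⟩, l, r1, r2⟩ := hD η e1 j (s, k, n) (b1.trans m1)
        have c1 := cut_mem (x ⁻¹' th {η} n') f k'
        have c2 := b1 (r1 c1)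
        have b2 : Nb (x ⁻¹' (V ∩ th {η} n')) (cut f k') (max k k') ⊆ _ :=
          nb_sub c2 (le_max_left _ _) (preimage_mono inter_subset_left)
        refine ⟨⟨((cut f k', fun a => if a < k then t a else cut f k' a, max k k'),
          V ∩ th {η} n', W, C), ⟨v1.inter (th_open _ _), ⟨η, e1, e2, sub_th _ _ rfl⟩, v3,
          (closure_mono inter_subset_left).trans v4⟩, c, b2.trans m1, fun a _ e => ?_⟩,
          ⟨b2, nb_sub ⟨fun a ha => if_pos ha, fun a ha e => v4 (subset_closure (c2.2 a ha ?_))⟩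
            (le_max_left _ _) subset_rfl, subset_rfl⟩, fun z hz =>
          ⟨l, r2 (nb_sub c1 (le_max_right _ _) (preimage_mono inter_subset_right) hz.1)⟩⟩
        · by_cases g : a < k
          · exact (if_pos g).trans (m2 a g ((c2.1 a g).symm.trans e))
          · exact (if_neg g).trans e
        · exact (if_neg ha.not_gt).symm.trans e
      obtain ⟨⟨⟨s, t, k⟩, V, W, C⟩, ⟨v1, v2, v3, v4⟩, ⟨c1, c2, c3⟩, m1, m2⟩ := σ
      obtain ⟨q, q1, q2⟩ := not_subset.1 (hq V v1 v2)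
      have d1 := c1.insert q
      have d2 := insert_subset (v4 (closure_mono inter_subset_right q1)) c2
      have d3 : ∀ c ∈ insert q C, c ∉ Lam I x := forall_mem_insert.2 ⟨q2, c3⟩
      obtain ⟨n, hn⟩ := th_sub d1 v3 d2
      obtain ⟨j, ⟨f, k', n'⟩, r1, r2⟩ := not_big (U := fun n => x ⁻¹' th (insert q C) n)
        (F := F) (i := i) (M := N _ (t, k, n)) fun b =>
          (big_pos h (an _) b).elim fun f hf => hf.1 (jc h d1 d3 hf.2)
      have w1 := v3.inter (th_open (insert q C) n')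
      have w2 := subset_inter d2 (sub_th _ n')
      obtain ⟨η, e1, e2, e3⟩ := mem_closure_iff.1 q1 _ w1 (w2 (mem_insert _ _))
      obtain ⟨V', u1, u2, u3⟩ := exists_mem_nhds_isClosed_subset ((w1.inter v1).mem_nhds ⟨e1, e3⟩)
      have g1 := cut_mem (x ⁻¹' th (insert q C) n') f k'
      have g2 := nb_mono t k (preimage_mono (f := x) hn) (r1 g1)
      have g3 : Nb (x ⁻¹' interior V') (cut s k) (max k k') ⊆ Nb (x ⁻¹' V) s k :=
        nb_sub (cut_mem _ _ _) (le_max_left _ _)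
          (preimage_mono fun y hy => (u3 (interior_subset hy)).2)
      have cv : ∀ {s t f : Y} {k U}, (∀ a < k, s a = true → t a = true) → f ∈ Nb U t k →
          ∀ a, cut s k a = true → f a = true := fun m g a e => by
        simp only [cut, Bool.and_eq_true, decide_eq_true_eq] at e
        exact (g.1 a e.1).trans (m a e.1 e.2)
      refine ⟨⟨((cut s k, cut f k', max k k'), interior V', W ∩ th (insert q C) n', insert q C),
        ⟨isOpen_interior, ⟨η, e2, mem_interior_iff_mem_nhds.2 u1⟩, w1,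
          (closure_minimal interior_subset u2).trans fun y hy => (u3 hy).1⟩, ⟨d1, w2, d3⟩,
          g3.trans m1, fun a _ => cv m2 g2 a⟩,
        ⟨g3, nb_sub g2 (le_max_left _ _) (preimage_mono inter_subset_left), subset_insert _ _⟩,
        j, fun l τ hτ => ?_⟩
      obtain ⟨⟨⟨s', t', κ⟩, V', W', C'⟩, v, c, m1', m2'⟩ := τ
      obtain ⟨n'', hn'⟩ := th_sub d1 v.2.2.1 (hτ.2.2.trans c.2.1)
      have b1 := nb_mono t' κ (preimage_mono (f := x) hn')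
      obtain ⟨g, a1, a2⟩ := not_subset.1 (r2 (t', κ, n'') l (b1.trans (hτ.2.1.trans
        (nb_sub g1 (le_max_right _ _) (preimage_mono inter_subset_right)))))
      obtain ⟨k3, hk⟩ := esc (h.cl i j l) a2
      have g4 : Nb (x ⁻¹' V') (cut s' κ) (max κ k3) ⊆ Nb (x ⁻¹' V') s' κ :=
        nb_sub (cut_mem _ _ _) (le_max_left _ _) subset_rfl
      exact ⟨⟨((cut s' κ, g, max κ k3), V', W', C'), v, c, g4.trans m1', fun a _ => cv m2' a1 a⟩,
        ⟨g4, nb_sub (b1 a1) (le_max_left _ _) subset_rfl, subset_rfl⟩,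
        fun z hz => hk _ _ (le_max_right _ _) hz.2.1⟩)
    ⟨((s0, s0, k0), V0, univ, ∅), ⟨o0, n0, isOpen_univ, subset_univ _⟩,
      ⟨finite_empty, empty_subset _, by simp⟩, subset_rfl, fun _ _ => id⟩
  refine (h.pos z.1).2 ⟨i, fun j => (hz' (.inl j)).elim fun _ h => h 0⟩ (h.sub _ ?_ _ hz.2.2)
  by_contra c
  obtain ⟨i, hi⟩ := (h.pos _).1 c
  obtain ⟨j, hj⟩ := hz' (.inr i)
  exact (hi j).elim hj

lemma fsigma [SecondCountableTopology X] (h : Id4 I F) (x : ℕ → X) :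
    ∃ D : ℕ → Set X, (∀ j, IsClosed (D j)) ∧ Lam I x = ⋃ j, D j := by
  classical
  let Sep : Set X → Prop := fun E => ∃ 𝒟 : Set (Set X), 𝒟.Countable ∧
    (∀ d ∈ 𝒟, IsClosed d ∧ d ⊆ Lam I x) ∧ E ⊆ ⋃₀ 𝒟
  have su : ∀ {κ : Type} [Countable κ] (E : κ → Set X), (∀ k, Sep (E k)) → Sep (⋃ k, E k) :=
    fun E hE => by
      choose 𝒟 a b c using hE
      exact ⟨⋃ k, 𝒟 k, countable_iUnion a, fun d hd => (mem_iUnion.1 hd).elim fun k => b k d,
        iUnion_subset fun k => (c k).trans (sUnion_mono (subset_iUnion _ k))⟩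
  obtain ⟨B, hB, -, hb⟩ := TopologicalSpace.exists_countable_basis X
  have := hB.to_subtype
  let D : ℕ × Finset ℕ × ℕ × B → Set X := fun p => {η ∈ p.2.2.2.1 | Big F
    (fun n => x ⁻¹' th {η} n) p.1 (Nb (x ⁻¹' p.2.2.2.1) (fun a => decide (a ∈ p.2.1)) p.2.2.1)}
  have sD : ∀ p, Sep (D p) := fun p => by
    let E := ⋃ V : {V : B // Sep (D p ∩ V.1)}, D p ∩ V.1.1
    obtain ⟨𝒟, a, b, c⟩ : Sep E := su _ fun V => V.2
    by_contra z
    obtain ⟨η, hη⟩ := not_subset.1 fun e : D p ⊆ E => z ⟨𝒟, a, b, e.trans c⟩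
    refine key h (D := D p \ E) (hb.isOpen p.2.2.2.2) ⟨η, hη, hη.1.1⟩ (fun _ h => h.1.2) ?_
    rintro V v ⟨y, y1, y2⟩ s
    obtain ⟨W, w1, w2, w3⟩ := hb.exists_subset_of_mem_open y2 v
    refine y1.2 (mem_iUnion.2 ⟨⟨⟨W, w1⟩, _, a.insert (closure ((D p \ E) ∩ V)),
      forall_mem_insert.2 ⟨⟨isClosed_closure, s⟩, b⟩, fun u hu => ?_⟩, y1.1, w2⟩)
    rw [sUnion_insert]
    exact (em (u ∈ E)).symm.imp (fun g => subset_closure ⟨⟨hu.1, g⟩, w3 hu.2⟩) fun g => c g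
  obtain ⟨𝒟, a, b, c⟩ := su D sD
  obtain ⟨f, hf⟩ := (a.insert ∅).exists_eq_range (insert_nonempty _ _)
  have e : ∀ j, IsClosed (f j) ∧ f j ⊆ Lam I x := fun j => forall_mem_insert.2
    ⟨⟨isClosed_empty, empty_subset _⟩, b⟩ _ (hf ▸ mem_range_self j)
  refine ⟨f, fun j => (e j).1, subset_antisymm ?_ (iUnion_subset fun j => (e j).2)⟩
  rw [← sUnion_range, ← hf, sUnion_insert, empty_union]
  rintro η ⟨A, a1, a2⟩
  obtain ⟨i, ⟨t, k, n⟩, hp⟩ := pos_big h (U := fun n => x ⁻¹' th {η} n)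
    (fun _ _ h => preimage_mono (th_anti _ h)) a1 (by simpa [th] using td_iff.1 a2)
  obtain ⟨V, v1, v2, v3⟩ := hb.exists_subset_of_mem_open (sub_th {η} n rfl) (th_open _ _)
  exact c (mem_iUnion.2 ⟨(i, (Finset.range k).filter (t · = true), k, ⟨V, v1⟩), v2,
    fun j q hq => hp j q (hq.trans fun g hg => ⟨fun a ha => by simpa [ha] using hg.1 a ha,
      fun a b c => v3 (hg.2 a b c)⟩)⟩)

end Pool.Agent.H.MP_c9b87f_lc
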