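import Pool.Agent.H.MP_c9b87f_lc.B

namespace Pool.Agent.H.MP_c9b87f_lc

open Set Filter Topology Metric

variable {I : Set (Set ℕ)} {F : ℕ → ℕ → ℕ → Set Y} {X : Type} [MetricSpace X]

def glue {k : ℕ} (s : Fin k → Bool) (f : Y) : Y := fun a => if h : a < k then s ⟨a, h⟩ else f a

lemma tal (h : Id4 I F) {A : Set ℕ} (hA : A ∉ I) : ∃ ν : ℕ → ℕ, Tendsto ν atTop atTop ∧
    ∀ M : Set ℕ, M.Infinite → A ∩ ν ⁻¹' M ∉ I := by
  classical
  obtain ⟨i, ⟨t, k0, n0⟩, b⟩ := pos_big h (U := fun _ => A) antitone_const hA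
    fun _ => ⟨0, fun _ _ => id⟩
  have st : ∀ k (T : Finset (Fin (k + 1) × (Fin k → Bool))), ∃ k' > k, ∃ f : Y,
      (∀ a, k ≤ a → f a = true → a ∈ A) ∧ ∀ p ∈ T, glue p.2 (fun _ => false) ∈ Nb A t k0 →
        k0 ≤ k → ∃ l, Nb A (glue p.2 f) k' ⊆ F i p.1 l := fun k T => by
    induction T using Finset.induction_on with
    | empty => exact ⟨k + 1, by simp, fun _ => false, by simp, by simp⟩
    | insert p T _ ih =>
      obtain ⟨k', k1, f, f1, f2⟩ := ih
      by_cases c : glue p.2 (fun _ => false) ∈ Nb A t k0 ∧ k0 ≤ k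
      swap
      · exact ⟨k', k1, f, f1, Finset.forall_mem_insert _ _ _ |>.2 ⟨fun a b => absurd ⟨a, b⟩ c, f2⟩⟩
      obtain ⟨⟨g, κ, n⟩, l, r1, r2⟩ := b p.1 (glue p.2 f, k', 0) ((nb_sub (k := k)
        (t := glue p.2 fun _ => false) ⟨fun a ha => by simp [glue, ha], fun a ha e =>
          f1 a ha (by simpa [glue, ha.not_gt] using e)⟩ k1.le subset_rfl).trans
            (nb_sub c.1 c.2 subset_rfl))
      have c1 := cut_mem A g κ
      have c2 := r1 c1
      have c3 : ∀ a, k ≤ a → a < k' → cut g κ a = f a := fun a a1 a2 => by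
        simpa [glue, a1.not_gt] using c2.1 a a2
      refine ⟨max k' κ, lt_max_of_lt_left k1, cut g κ, fun a ha e => (lt_or_ge a k').elim
        (fun z => f1 a ha (c3 a ha z ▸ e)) fun z => c2.2 a z e, Finset.forall_mem_insert _ _ _ |>.2
          ⟨fun _ _ => ⟨l, ?_⟩, fun q hq a1 a2 => (f2 q hq a1 a2).imp fun l hl =>
            (nb_sub ⟨fun a ha => ?_, fun a ha e => c2.2 a ha ?_⟩ (le_max_left _ _)
              subset_rfl).trans hl⟩⟩
      · rw [show glue p.2 (cut g κ) = cut g κ from funext fun a => by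
          by_cases z : a < k
          · simpa [glue, z] using (c2.1 a (z.trans k1)).symm
          · simp [glue, z]]
        exact (nb_sub c1 (le_max_right _ _) subset_rfl).trans r2
      · by_cases z : a < k
        · simp [glue, z]
        · simp [glue, z, c3 a (by omega) ha]
      · simpa [glue, (k1.le.trans ha).not_gt] using e
  choose nx n1 f f1 f2 using fun k => st k Finset.univ
  let k : ℕ → ℕ := fun n => Nat.rec (motive := fun _ => ℕ) k0 (fun _ => nx) n
  have km : StrictMono k := strictMono_nat_of_lt_succ fun n => n1 _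
  have ex : ∀ a, ∃ n, a < k (n + 1) := fun a => ⟨a, km.le_apply (x := a + 1)⟩
  have e1 : ∀ a, k0 ≤ a → k (Nat.find (ex a)) ≤ a := fun a ha => by
    rcases e : Nat.find (ex a) with _ | n
    · exact ha
    · exact not_lt.1 (Nat.find_min (ex a) (by omega))
  refine ⟨fun a => Nat.find (ex a), tendsto_atTop.2 fun n => (eventually_ge_atTop (k n)).mono
    fun a ha => Nat.le_of_lt_succ (km.lt_iff_lt.1 (ha.trans_lt (Nat.find_spec (ex a)))),
    fun M hM z => ?_⟩
  let g : Y := fun a => if a < k0 then t a else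
    decide (Nat.find (ex a) ∈ M) && f (k (Nat.find (ex a))) a
  have g1 : ∀ a, k0 ≤ a → g a = true → a ∈ A ∩ (fun a => Nat.find (ex a)) ⁻¹' M := fun a ha e => by
    simp only [g, if_neg ha.not_gt, Bool.and_eq_true, decide_eq_true_eq] at e
    exact ⟨f1 _ a (e1 a ha) e.2, e.1⟩
  refine (h.pos g).2 ⟨i, fun j => ?_⟩ (h.sub _ (h.un _ (h.fin _ (finite_Iio k0)) _ z) _
    fun a ha => (lt_or_ge a k0).imp_right (g1 a · ha))
  obtain ⟨n, hn, hj⟩ := hM.exists_gt j
  have k1 : k0 ≤ k n := km.monotone n.zero_le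
  have jn : j < k n + 1 := by have := km.le_apply (x := n); omega
  refine (f2 (k n) (⟨j, jn⟩, fun a => g a.1) (Finset.mem_univ _)
    ⟨fun a ha => by simp [glue, g, ha, ha.trans_le k1], fun a ha e => (g1 a ha ?_).1⟩ k1).imp
    fun l hl => hl ⟨fun a ha => ?_, fun a ha e => (g1 a (k1.trans ((n1 _).le.trans ha)) e).1⟩
  · unfold glue at e; split_ifs at e; exact e
  · by_cases z : a < k n
    · simp [glue, z]
    · have : Nat.find (ex a) = n := (Nat.find_eq_iff _).2 ⟨ha, fun m hm c =>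
        z (c.trans_le (km.monotone hm))⟩
      simp [glue, z, g, this, hn, show ¬ a < k0 by omega]

lemma real [SecondCountableTopology X] (h : Id4 I F) {A : Set ℕ} (hA : A ∉ I) {E : Set X}
    (hE : E.Nonempty) : ∃ y : ℕ → X, (∀ a, y a ∈ E) ∧
      ∀ η ∈ E, ∃ S ⊆ A, S ∉ I ∧ Tendsto y (atTop ⊓ 𝓟 S) (𝓝 η) := by
  obtain ⟨ν, n1, n2⟩ := tal h hA
  have := hE.to_subtype
  obtain ⟨d, hd⟩ := TopologicalSpace.exists_dense_seq E
  refine ⟨fun a => d (ν a).unpair.1, fun a => (d _).2, fun η hη => ?_⟩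
  choose j hj using fun r : ℕ => hd.exists_dist_lt ⟨η, hη⟩ (Nat.one_div_pos_of_nat (n := r))
  refine ⟨_, inter_subset_left, n2 _ (infinite_range_of_injective (f := fun r => (j r).pair r)
    fun a b e => (Nat.pair_eq_pair.1 e).2), td_iff.2 fun n => ?_⟩
  obtain ⟨k, hk⟩ := eventually_atTop.1 (n1.eventually_gt_atTop
    ((Finset.range n).sup fun r => (j r).pair r))
  refine ⟨k, fun a ha ⟨_, r, e⟩ => ?_⟩
  have : n ≤ r := not_lt.1 fun c => (hk a ha).not_ge
    (e ▸ Finset.le_sup (f := fun r => (j r).pair r) (Finset.mem_range.2 c))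
  simp only [← e, Nat.unpair_pair]
  exact (dist_comm _ _).trans_lt ((hj r).trans_le (Nat.one_div_le_one_div this))

lemma fin_of {y : ℕ → X} {S : Set ℕ} {ζ : X} (h : Tendsto y (atTop ⊓ 𝓟 S) (𝓝 ζ)) {C : Set X}
    (hC : IsClosed C) (hz : ζ ∉ C) : {a ∈ S | y a ∈ C}.Finite := by
  obtain ⟨k, hk⟩ := eventually_atTop.1 (eventually_inf_principal.1
    (h.eventually (hC.isOpen_compl.mem_nhds hz)))
  exact (finite_Iio k).subset fun a ha => not_le.1 fun c => hk a c ha.1 ha.2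

lemma cols (h : Id4 I F) {x : ℕ → X} (hx : ¬ IsClosed (Lam I x)) : ∃ A : ℕ → Set ℕ,
    (∀ a r s, a ∈ A r → a ∈ A s → r = s) ∧ (∀ r, A r ∉ I) ∧
      ∀ S ⊆ ⋃ r, A r, (∀ r, (S ∩ A r).Finite) → S ∈ I := by
  obtain ⟨η, e1, e2⟩ := not_subset.1 fun c => hx (isClosed_of_closure_subset c)
  haveI : Nonempty X := ⟨η⟩
  choose! ζ z1 z2 using Metric.mem_closure_iff.1 e1
  let δ : ℕ → ℝ := fun n => Nat.rec 1 (fun _ d => dist η (ζ d) / 2) n
  have p : ∀ d > 0, 0 < dist η (ζ d) := fun d hd => dist_pos.2 fun c => e2 (c ▸ z1 d hd)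
  have d0 : ∀ n, 0 < δ n ∧ δ n ≤ 1 / (n + 1) := fun n => by
    induction n with
    | zero => simp [δ]
    | succ n ih =>
      refine ⟨half_pos (p _ ih.1), (div_le_div_of_nonneg_right ((z2 _ ih.1).le.trans ih.2)
        zero_le_two).trans ?_⟩
      rw [div_div]
      exact one_div_le_one_div_of_le (by positivity) (by push_cast; linarith [n.cast_nonneg (α := ℝ)])
  have da : Antitone δ := antitone_nat_of_succ_le fun n =>
    (half_le_self dist_nonneg).trans (z2 _ (d0 n).1).le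
  refine ⟨fun r => {a | dist η (x a) ∈ Ioo (δ (r + 1)) (δ r)}, fun a r s h1 h2 => le_antisymm
    (not_lt.1 fun c => (h1.2.trans_le (da c)).asymm h2.1)
    (not_lt.1 fun c => (h2.2.trans_le (da c)).asymm h1.1), fun r c => ?_, fun S s1 s2 => ?_⟩
  · obtain ⟨B, b1, b2⟩ := z1 _ (d0 r).1
    refine b1 (h.sub _ (h.un _ (h.fin _ (fin_of b2 (C := {y | dist η y ∈ Ioo (δ (r + 1)) (δ r)}ᶜ)
      (isOpen_Ioo.preimage (by fun_prop)).isClosed_compl (not_not.2
        ⟨half_lt_self (p _ (d0 r).1), z2 _ (d0 r).1⟩))) _ c) _ fun a ha => ?_)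
    exact (em _).symm.imp_left fun g => ⟨ha, g⟩
  · by_contra c
    refine e2 ⟨S, c, td_iff.2 fun n => ?_⟩
    obtain ⟨k, hk⟩ := ((finite_Iio n).biUnion fun r _ => s2 r).bddAbove
    refine ⟨k + 1, fun a ha b => ?_⟩
    obtain ⟨r, hr⟩ := mem_iUnion.1 (s1 b)
    have : n ≤ r := not_lt.1 fun c => by have := hk (mem_biUnion c ⟨b, hr⟩); omega
    exact (dist_comm _ _).trans_lt (hr.2.trans_le ((da this).trans (d0 n).2))

lemma all [SecondCountableTopology X] (h : Id4 I F) {x : ℕ → X} (hx : ¬ IsClosed (Lam I x))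
    {D : ℕ → Set X} (hD : ∀ j, IsClosed (D j)) {e : X} (he : e ∈ ⋃ j, D j) :
    ∃ y, ⋃ j, D j = Lam I y := by
  classical
  obtain ⟨A, a1, a2, a3⟩ := cols h hx
  choose y y1 y2 using fun r => real h (a2 r) (insert_nonempty e (D r))
  let w : ℕ → X := fun a => if c : ∃ r, a ∈ A r then y c.choose a else e
  have hw : ∀ r, ∀ a ∈ A r, w a = y r a := fun r a ha => by
    have c : ∃ r, a ∈ A r := ⟨r, ha⟩
    simp only [w, dif_pos c, a1 a _ _ c.choose_spec ha]
  refine ⟨w, subset_antisymm (iUnion_subset fun r η hη => ?_) fun ζ ⟨S, s1, s2⟩ => ?_⟩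
  · obtain ⟨S, s1, s2, s3⟩ := y2 r η (.inr hη)
    exact ⟨S, s2, s3.congr' (eventually_inf_principal.2 (.of_forall fun a ha =>
      (hw r a (s1 ha)).symm))⟩
  by_contra c
  have := fun r => fin_of s2 (isClosed_singleton.union (hD r))
    (show ζ ∉ insert e (D r) from fun z => c (z.elim (· ▸ he) (mem_iUnion_of_mem r)))
  refine s1 (h.sub _ (h.un _ (h.fin _ (this 0)) _ (a3 (S ∩ ⋃ r, A r) inter_subset_right
    fun r => (this r).subset fun a ha => ⟨ha.1.1, hw r a ha.2 ▸ y1 r a⟩)) _ fun a ha => ?_)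
  by_cases z : ∃ r, a ∈ A r
  exacts [.inr ⟨ha, mem_iUnion.2 z⟩, .inl ⟨ha, .inl (dif_neg z)⟩]

end Pool.Agent.H.MP_c9b87f_lc
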